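import Mathlib

namespace Pool.Agent.Results.MP_c77999_an.Strict
open Matrix Finset
open scoped ComplexConjugate

/-- operator norm on Euclidean `ℂⁿ` -/
noncomputable def opn {n : ℕ} (A : Matrix (Fin n) (Fin n) ℂ) : ℝ :=
  ‖Matrix.toEuclideanCLM (n := Fin n) (𝕜 := ℂ) A‖

/-- Schur multiplier norm -/
noncomputable def schur {n : ℕ} (M : Matrix (Fin n) (Fin n) ℂ) : ℝ :=
  sSup {t | ∃ A, opn A ≤ 1 ∧ t = opn (M ⊙ A)}

/-- `r n`: the largest Schur multiplier norm of an `n × n` matrix with entries `±1` -/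
noncomputable def r (n : ℕ) : ℝ :=
  sSup {t | ∃ M : Matrix (Fin n) (Fin n) ℂ, (∀ i j, M i j = 1 ∨ M i j = -1) ∧ t = schur M}

variable {n : ℕ}

noncomputable def φ (B : Matrix (Fin n) (Fin n) ℂ) (x y : EuclideanSpace ℂ (Fin n)) : ℂ :=
  ∑ i, ∑ j, conj (x i) * B i j * y j

lemma φ_eq (B : Matrix (Fin n) (Fin n) ℂ) (x y : EuclideanSpace ℂ (Fin n)) :
    φ B x y = inner ℂ x (Matrix.toEuclideanCLM (n := Fin n) (𝕜 := ℂ) B y) := by
  simp [φ, PiLp.inner_apply, mulVec, dotProduct, mul_sum, mul_comm, mul_left_comm, mul_assoc]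

lemma L1 (B : Matrix (Fin n) (Fin n) ℂ) (x y) : ‖φ B x y‖ ≤ opn B * (‖x‖ * ‖y‖) := by
  rw [φ_eq]
  refine (norm_inner_le_norm _ _).trans ?_
  have := (Matrix.toEuclideanCLM (n := Fin n) (𝕜 := ℂ) B).le_opNorm y
  unfold opn
  nlinarith [norm_nonneg x]

lemma L2 (B : Matrix (Fin n) (Fin n) ℂ) (c : ℝ) (hc : 0 ≤ c)
    (h : ∀ x y, ‖x‖ = 1 → ‖y‖ = 1 → (φ B x y).re ≤ c) : opn B ≤ c := by
  refine ContinuousLinearMap.opNorm_le_of_unit_norm hc fun y hy => ?_
  set v := Matrix.toEuclideanCLM (n := Fin n) (𝕜 := ℂ) B y with hv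
  by_cases h0 : ‖v‖ = 0
  · rwa [h0]
  have := h (((‖v‖⁻¹ : ℝ) : ℂ) • v) y (by simp [norm_smul, h0]) hy
  rw [φ_eq, ← hv, inner_smul_left, inner_self_eq_norm_sq_to_K, Complex.conj_ofReal] at this
  have e : (((‖v‖⁻¹ : ℝ) : ℂ) * (‖v‖ : ℂ) ^ 2).re = ‖v‖ := by
    rw [← Complex.ofReal_pow, ← Complex.ofReal_mul, Complex.ofReal_re]; field_simp
  exact e ▸ this

lemma coord (x : EuclideanSpace ℂ (Fin n)) (i) : ‖x i‖ ≤ ‖x‖ := PiLp.norm_apply_le x i

lemma entry (A : Matrix (Fin n) (Fin n) ℂ) (i j) : ‖A i j‖ ≤ opn A := by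
  have := L1 A (EuclideanSpace.single i 1) (EuclideanSpace.single j 1)
  simpa [φ, Pi.single_apply, apply_ite] using this

lemma bd {M A : Matrix (Fin n) (Fin n) ℂ} (hM : ∀ i j, M i j = 1 ∨ M i j = -1) (hA : opn A ≤ 1) :
    opn (M ⊙ A) ≤ n * n := by
  refine L2 _ _ (by positivity) fun x y hx hy => (Complex.re_le_norm _).trans ?_
  refine (norm_sum_le_of_le _ fun i _ => norm_sum_le_of_le (n := fun _ => (1 : ℝ)) _
    fun j _ => ?_).trans (by simp)
  have a := (coord x i).trans hx.le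
  have b := (coord y j).trans hy.le
  have c := (entry A i j).trans hA
  have d : ‖M i j‖ = 1 := by rcases hM i j with h | h <;> simp [h]
  simp only [hadamard_apply, norm_mul, RCLike.norm_conj, d, one_mul]
  exact mul_le_one₀ (mul_le_one₀ a (norm_nonneg _) c) (norm_nonneg _) b

lemma le_r {M A : Matrix (Fin n) (Fin n) ℂ} (hM : ∀ i j, M i j = 1 ∨ M i j = -1)
    (hA : opn A ≤ 1) : opn (M ⊙ A) ≤ r n :=
  by
  have h1 : opn (M ⊙ A) ≤ schur M := by
    unfold schur
    exact le_csSup ⟨n * n, by rintro _ ⟨A, hA, rfl⟩; exact bd hM hA⟩ ⟨A, hA, rfl⟩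
  refine h1.trans ?_
  unfold r
  refine le_csSup ⟨n * n, ?_⟩ ⟨M, hM, rfl⟩
  rintro _ ⟨M, hM, rfl⟩
  exact Real.sSup_le (by rintro _ ⟨A, hA, rfl⟩; exact bd hM hA) (by positivity)

def π (p : Fin n) : Fin (n + 1) → Fin n := Fin.cons p id
noncomputable def c (p : Fin n) : Fin (n + 1) → ℂ :=
  Fin.cons (3 / 5) fun i => if i = p then 4 / 5 else 1
noncomputable def w (p : Fin n) : Fin (n + 1) → ℂ :=
  Fin.cons (4 / 5) fun i => if i = p then -3 / 5 else 0

lemma split (p : Fin n) (f g : Fin n → ℂ) (h : ∀ i, i ≠ p → f i = g i) :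
    ∑ i, f i = ∑ i, g i + (f p - g p) := by
  rw [← add_sum_erase _ _ (mem_univ p), ← add_sum_erase _ g (mem_univ p),
    sum_congr rfl fun i hi => h i (mem_erase.1 hi).1]
  ring

lemma S1 (p : Fin n) (f : Fin n → ℂ) : ∑ I, c p I * c p I * f (π p I) = ∑ i, f i := by
  rw [Fin.sum_univ_succ, split p _ f fun i hi => by simp [c, π, hi]]
  simp [c, π]; ring

lemma S2 (p : Fin n) (f : Fin n → ℂ) : ∑ I, c p I * w p I * f (π p I) = 0 := by
  rw [Fin.sum_univ_succ, split p _ 0 fun i hi => by simp [w, hi]]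
  simp [c, w, π]; ring

noncomputable def up (p : Fin n) (x : EuclideanSpace ℂ (Fin n)) : EuclideanSpace ℂ (Fin (n + 1)) :=
  WithLp.toLp 2 fun I => c p I * x (π p I)

noncomputable def dn (p : Fin n) (u : EuclideanSpace ℂ (Fin (n + 1))) : EuclideanSpace ℂ (Fin n) :=
  WithLp.toLp 2 fun i => if i = p then 3 / 5 * u 0 + 4 / 5 * u i.succ else u i.succ

lemma cc (p : Fin n) (I) : conj (c p I) = c p I := by
  refine Fin.cases ?_ (fun i => ?_) I <;> simp only [c, Fin.cons_zero, Fin.cons_succ]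
  · simp [map_ofNat]
  · split_ifs <;> simp [map_ofNat]

lemma nsq {m : ℕ} (x : EuclideanSpace ℂ (Fin m)) : ((‖x‖ ^ 2 : ℝ) : ℂ) = ∑ i, conj (x i) * x i := by
  rw [EuclideanSpace.norm_sq_eq]; push_cast
  exact sum_congr rfl fun i _ => (Complex.conj_mul' _).symm

lemma up_norm (p : Fin n) (x : EuclideanSpace ℂ (Fin n)) : ‖up p x‖ = ‖x‖ := by
  rw [← sq_eq_sq₀ (norm_nonneg _) (norm_nonneg _), ← Complex.ofReal_inj, nsq, nsq, ← S1 p]
  exact sum_congr rfl fun I _ => by simp only [up, map_mul, cc]; ring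

lemma S3 (p : Fin n) (u : EuclideanSpace ℂ (Fin (n + 1))) (f : Fin n → ℂ) :
    ∑ I, c p I * u I * f (π p I) = ∑ i, dn p u i * f i := by
  rw [Fin.sum_univ_succ, split p _ (fun i => dn p u i * f i) fun i hi => by simp [c, π, dn, hi]]
  simp [c, π, dn]; ring

lemma S4 (p : Fin n) (u : EuclideanSpace ℂ (Fin (n + 1))) :
    ∑ I, w p I * u I = 4 / 5 * u 0 - 3 / 5 * u p.succ := by
  rw [Fin.sum_univ_succ, split p _ 0 fun i hi => by simp [w, hi]]
  simp [w]; ring

lemma dn_norm (p : Fin n) (u : EuclideanSpace ℂ (Fin (n + 1))) :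
    ‖dn p u‖ ^ 2 + ‖4 / 5 * u 0 - 3 / 5 * u p.succ‖ ^ 2 = ‖u‖ ^ 2 := by
  rw [← Complex.ofReal_inj, Complex.ofReal_add, nsq, nsq, Fin.sum_univ_succ,
    split p _ (fun i => conj (u i.succ) * u i.succ) fun i hi => by simp [dn, hi],
    Complex.ofReal_pow, ← Complex.conj_mul']
  simp [dn, map_ofNat]; ring

noncomputable def ext (A : Matrix (Fin n) (Fin n) ℂ) (p q : Fin n) (ω : ℂ) :
    Matrix (Fin (n + 1)) (Fin (n + 1)) ℂ :=
  Matrix.of fun I J => c p I * c q J * A (π p I) (π q J) + ω * (w p I * w q J)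

lemma ext_le {A : Matrix (Fin n) (Fin n) ℂ} (hA : opn A ≤ 1) (p q : Fin n) {ω : ℂ}
    (hω : ‖ω‖ = 1) : opn (ext A p q ω) ≤ 1 := by
  refine L2 _ _ zero_le_one fun u v hu hv => (Complex.re_le_norm _).trans ?_
  have e : φ (ext A p q ω) u v = φ A (dn p u) (dn q v) +
      ω * conj (4 / 5 * u 0 - 3 / 5 * u p.succ) * (4 / 5 * v 0 - 3 / 5 * v q.succ) := by
    have h1 : ∑ I, ∑ J, conj (u I) * (c p I * c q J * A (π p I) (π q J)) * v J
        = φ A (dn p u) (dn q v) := by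
      have := congrArg conj (S3 p u fun i => conj (∑ j, dn q v j * A i j))
      simp only [map_sum, map_mul, cc, Complex.conj_conj] at this
      simp only [φ, mul_assoc, ← mul_sum]
      simp only [mul_comm (A _ _)]
      rw [← this]
      refine sum_congr rfl fun I _ => ?_
      rw [← S3 q v, mul_sum, mul_sum, mul_sum]
      exact sum_congr rfl fun J _ => by ring
    have h2 : conj (4 / 5 * u 0 - 3 / 5 * u p.succ) = ∑ I, w p I * conj (u I) := by
      have := S4 p (WithLp.toLp 2 fun I => conj (u I))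
      simp only at this
      rw [this]; simp [map_ofNat]
    rw [← h1, h2, ← S4, mul_assoc, sum_mul_sum, mul_sum, ← sum_add_distrib]
    refine sum_congr rfl fun I _ => ?_
    rw [mul_sum, ← sum_add_distrib]
    exact sum_congr rfl fun J _ => by simp only [ext, of_apply]; ring
  rw [e]
  refine (norm_add_le _ _).trans ?_
  have a := L1 A (dn p u) (dn q v)
  have b := dn_norm p u
  have d := dn_norm q v
  rw [hu] at b; rw [hv] at d
  rw [norm_mul, norm_mul, hω, one_mul, RCLike.norm_conj]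
  have := mul_le_mul_of_nonneg_right hA (mul_nonneg (norm_nonneg (dn p u)) (norm_nonneg (dn q v)))
  nlinarith [sq_nonneg (‖dn p u‖ - ‖dn q v‖),
    sq_nonneg (‖4 / 5 * u 0 - 3 / 5 * u p.succ‖ - ‖4 / 5 * v 0 - 3 / 5 * v q.succ‖)]

lemma big (hn : 1 ≤ n) (x : EuclideanSpace ℂ (Fin n)) (hx : ‖x‖ = 1) :
    ∃ p, 1 / (n : ℝ) ≤ ‖x p‖ := by
  by_contra h
  push Not at h
  have : Nonempty (Fin n) := ⟨⟨0, hn⟩⟩
  have h1 : (1 : ℝ) ≤ n := by exact_mod_cast hn
  have := sum_lt_sum_of_nonempty (s := univ) (f := fun i => ‖x i‖ ^ 2) (g := fun _ => 1 / (n : ℝ))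
    univ_nonempty fun i _ => by
      have := (coord x i).trans hx.le
      nlinarith [h i, norm_nonneg (x i)]
  rw [← EuclideanSpace.norm_sq_eq, hx] at this
  simp only [sum_const, card_univ, Fintype.card_fin, nsmul_eq_mul] at this
  rw [mul_one_div_cancel (by linarith)] at this
  norm_num at this

lemma gain (hn : 1 ≤ n) {M A : Matrix (Fin n) (Fin n) ℂ} (hM : ∀ i j, M i j = 1 ∨ M i j = -1)
    (hA : opn A ≤ 1) (x y) (hx : ‖x‖ = 1) (hy : ‖y‖ = 1) :
    (φ (M ⊙ A) x y).re ≤ r (n + 1) - 1 / 5 * (1 / n * (1 / n)) := by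
  obtain ⟨p, hp⟩ := big hn x hx
  obtain ⟨q, hq⟩ := big hn y hy
  set t := -(conj (x p) * M p q * y q) with ht
  obtain ⟨ω, hω, hω'⟩ := Complex.exists_norm_eq_mul_self t
  let M' : Matrix (Fin (n + 1)) (Fin (n + 1)) ℂ := Matrix.of fun I J =>
    M (π p I) (π q J) - if I = 0 ∧ J = 0 then 2 * M p q else 0
  have hM' : ∀ I J, M' I J = 1 ∨ M' I J = -1 := fun I J => by
    simp only [M', of_apply]
    split_ifs with h
    · rcases hM p q with h' | h' <;> simp [h.1, h.2, π, h'] <;> norm_num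
    · simpa using hM _ _
  have e : φ (M' ⊙ ext A p q ω) (up p x) (up q y) = φ (M ⊙ A) x y +
      18 / 25 * (9 / 25 * (A p q * t) + 16 / 25 * (ω * t)) := by
    have h1 : ∀ I J, conj (up p x I) * (M' ⊙ ext A p q ω) I J * up q y J =
        c p I * c p I * (c q J * c q J * (conj (x (π p I)) * (M ⊙ A) (π p I) (π q J) * y (π q J)))
        + c p I * w p I * (c q J * w q J * (ω * conj (x (π p I)) * M (π p I) (π q J) * y (π q J)))
        + if I = 0 ∧ J = 0 then 18 / 25 * (9 / 25 * (A p q * t) + 16 / 25 * (ω * t)) else 0 := by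
      intro I J
      simp only [up, M', ext, hadamard_apply, of_apply, map_mul, cc]
      split_ifs with h
      · rw [h.1, h.2, ht]; simp only [c, w, π, Fin.cons_zero]; ring
      · ring
    simp only [φ, h1, sum_add_distrib, ← mul_sum]
    have h2 := fun i => S1 q fun j => conj (x i) * (M ⊙ A) i j * y j
    have h3 := fun i => S2 q fun j => ω * conj (x i) * M i j * y j
    simp only [h2, h3]
    rw [S1 p fun i => ∑ j, conj (x i) * (M ⊙ A) i j * y j]
    simp [ite_and]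
  have a := (Complex.re_le_norm _).trans (L1 (M' ⊙ ext A p q ω) (up p x) (up q y))
  rw [up_norm, up_norm, hx, hy, e, ← hω'] at a
  have b := le_r hM' (ext_le hA p q hω)
  have d : ‖M p q‖ = 1 := by rcases hM p q with h | h <;> simp [h]
  have t1 : 1 / (n : ℝ) * (1 / n) ≤ ‖t‖ := by
    simp only [ht, norm_neg, norm_mul, RCLike.norm_conj, d, mul_one]
    exact mul_le_mul hp hq (by positivity) (norm_nonneg _)
  have t2 : -‖t‖ ≤ (A p q * t).re := by
    have := (abs_le.1 (Complex.abs_re_le_norm (A p q * t))).1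
    have h := mul_le_of_le_one_left (norm_nonneg t) ((entry A p q).trans hA)
    rw [norm_mul] at this; linarith
  generalize A p q * t = s at *
  simp at a
  have : (0 : ℝ) ≤ 1 / n * (1 / n) := by positivity
  linarith

theorem result (n : ℕ) (hn : 1 ≤ n) : r n < r (n + 1) := by
  have h0 : (0 : ℝ) < 1 / 5 * (1 / n * (1 / n)) := by
    have : (0 : ℝ) < n := by exact_mod_cast hn
    positivity
  have h1 : 0 ≤ r (n + 1) - 1 / 5 * (1 / n * (1 / n)) := by
    simpa [φ] using gain hn (M := Matrix.of fun _ _ => 1) (A := 0) (fun _ _ => Or.inl rfl) (by simp [opn])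
      (EuclideanSpace.single ⟨0, hn⟩ 1) (EuclideanSpace.single ⟨0, hn⟩ 1) (by simp) (by simp)
  refine lt_of_le_of_lt (Real.sSup_le ?_ h1) (by linarith)
  rintro _ ⟨M, hM, rfl⟩
  refine Real.sSup_le ?_ h1
  rintro _ ⟨A, hA, rfl⟩
  exact L2 _ _ h1 (gain hn hM hA)

end Pool.Agent.Results.MP_c77999_an.Strict
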